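import Pool.Agent.L0h33.LU.Gap

/-!
# Lehmer numbers in geometric progressions: the count in one variable
-/

set_option autoImplicit false

namespace Pool.Agent.L0h33.LU

open Finset
open Pool.Agent.H95R2.Leh
open Pool.Agent.R330.LT

/-- all but at most one of the numbers are large -/
theorem bad_le_one {a : ℕ} (ha : 3 ≤ a) {c b : ℤ} (hc0 : c ≠ 0) {w : ℕ} (A : Finset ℕ)
    (f : ℕ → ℕ) (hA : ∀ m ∈ A, (f m : ℤ) = c * w * (a : ℤ) ^ m + b) :
    (A.filter (fun m => f m < w * 2 ^ m)).card ≤ 1 := by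
  have key : ∀ m ∈ A, ∀ m' ∈ A, f m < w * 2 ^ m → f m' < w * 2 ^ m' → m < m' → False := by
    intro m hm m' hm' h1 h2 hlt
    obtain ⟨k, rfl⟩ := Nat.exists_eq_add_of_lt hlt
    have e1 := hA m hm
    have e2 := hA _ hm'
    have h3 : (2 : ℤ) ^ (m + k + 1) ≤ (a : ℤ) ^ (m + k + 1) - (a : ℤ) ^ m := by
      have ha' : (3 : ℤ) ≤ a := by exact_mod_cast ha
      have h4 : (a : ℤ) ^ m ≤ (a : ℤ) ^ (m + k) := pow_le_pow_right₀ (by linarith) (by omega)
      have h5 : (2 : ℤ) ^ (m + k) ≤ (a : ℤ) ^ (m + k) :=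
        pow_le_pow_left₀ (by norm_num) (by linarith) _
      have h6 : (a : ℤ) ^ (m + k + 1) = a * (a : ℤ) ^ (m + k) := by ring
      have h7 : (2 : ℤ) ^ (m + k + 1) = 2 * 2 ^ (m + k) := by ring
      have h8 : (0 : ℤ) ≤ (a : ℤ) ^ (m + k) := by positivity
      nlinarith
    have h9 : |((f (m + k + 1) : ℤ)) - f m| < w * 2 ^ (m + k + 1) := by
      have h10 : (f m : ℤ) < w * 2 ^ (m + k + 1) := by
        have h11 : f m < w * 2 ^ (m + k + 1) :=
          h1.trans_le (Nat.mul_le_mul_left _ (Nat.pow_le_pow_right (by norm_num) (by omega)))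
        exact_mod_cast h11
      have h12 : ((f (m + k + 1) : ℤ)) < w * 2 ^ (m + k + 1) := by exact_mod_cast h2
      rw [abs_lt]
      constructor
      · have : (0 : ℤ) ≤ f (m + k + 1) := Int.natCast_nonneg _
        linarith
      · have : (0 : ℤ) ≤ f m := Int.natCast_nonneg _
        linarith
    have h13 : ((f (m + k + 1) : ℤ)) - f m =
        c * (w * ((a : ℤ) ^ (m + k + 1) - (a : ℤ) ^ m)) := by
      rw [e1, e2]
      ring
    have hw0 : (0 : ℤ) ≤ w := Int.natCast_nonneg _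
    have h14 : (w : ℤ) * 2 ^ (m + k + 1) ≤ w * ((a : ℤ) ^ (m + k + 1) - (a : ℤ) ^ m) :=
      mul_le_mul_of_nonneg_left h3 hw0
    have h15 : (0 : ℤ) ≤ w * ((a : ℤ) ^ (m + k + 1) - (a : ℤ) ^ m) := by
      refine le_trans ?_ h14
      positivity
    rw [h13, abs_mul, abs_of_nonneg h15] at h9
    have h16 : 1 ≤ |c| := Int.one_le_abs hc0
    nlinarith
  rw [Finset.card_le_one]
  intro m hm m' hm'
  rw [mem_filter] at hm hm'
  rcases lt_trichotomy m m' with h | h | h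
  · exact absurd (key m hm.1 m' hm'.1 hm.2 hm'.2 h) id
  · exact h
  · exact absurd (key m' hm'.1 m hm.1 hm'.2 hm.2 h) id

/-- the number `G = 2 ^ v (a ^ 2 - 1)` -/
noncomputable def GG (v a : ℕ) : ℝ := 2 ^ v * ((a : ℝ) ^ 2 - 1)

theorem GG_pos {v a : ℕ} (ha : 3 ≤ a) : 0 < GG v a := by
  unfold GG
  have : (3 : ℝ) ≤ a := by exact_mod_cast ha
  have h : (0 : ℝ) < (a : ℝ) ^ 2 - 1 := by nlinarith
  positivity

theorem GG_cast {v a : ℕ} (ha : 3 ≤ a) : ((2 ^ v * (a ^ 2 - 1) : ℕ) : ℝ) = GG v a := by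
  unfold GG
  have : 1 ≤ a ^ 2 := Nat.one_le_pow _ _ (by omega)
  push_cast [Nat.cast_sub this]
  ring

/-- `1 / log (1 + 100 / (G + 100)) ≤ 2 + G / 100` -/
theorem inv_log_le {G : ℝ} (hG : 0 < G) :
    0 < Real.log (1 + 100 / (G + 100)) ∧ 1 / Real.log (1 + 100 / (G + 100)) ≤ 2 + G / 100 := by
  have h1 : 0 < 100 / (G + 100) := by positivity
  have h2 : 0 < Real.log (1 + 100 / (G + 100)) := Real.log_pos (by linarith)
  refine ⟨h2, ?_⟩
  have h3 := Real.one_sub_inv_le_log_of_pos (show 0 < 1 + 100 / (G + 100) by linarith)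
  have h4 : 1 - (1 + 100 / (G + 100))⁻¹ = 100 / (G + 200) := by
    field_simp
    ring
  rw [h4] at h3
  rw [div_le_iff₀ h2]
  calc (1 : ℝ) = (2 + G / 100) * (100 / (G + 200)) := by
        field_simp
        ring
    _ ≤ (2 + G / 100) * Real.log (1 + 100 / (G + 100)) := by
        apply mul_le_mul_of_nonneg_left h3
        positivity

theorem count {a : ℕ} (ha : 3 ≤ a) (hodd : ¬ 2 ∣ a) {v : ℕ} {c b : ℤ}
    (hc : ¬ (2 : ℤ) ^ (v + 1) ∣ c) {w : ℕ} (hw : ¬ 2 ∣ w) (A : Finset ℕ)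
    (hA : ∀ m ∈ A, ∃ n : ℕ, Leh n ∧ (n : ℤ) = c * w * (a : ℤ) ^ m + b)
    (Z : ℝ) (hzZ : 1 + Real.logb 2 w ≤ Z) (hZ : ∀ m ∈ A, 1 + Real.logb 2 w + m ≤ Z) :
    (A.card : ℝ) ≤ 2 + (2 + GG v a / 100) * Real.log (Z / (1 + Real.logb 2 w)) := by
  have hc0 : c ≠ 0 := by
    rintro rfl
    exact hc (dvd_zero _)
  have hw1 : 1 ≤ w := Nat.pos_of_ne_zero (by rintro rfl; exact hw (dvd_zero _))
  have hw1R : (1 : ℝ) ≤ w := by exact_mod_cast hw1
  have hlw : 0 ≤ Real.logb 2 w := Real.logb_nonneg (by norm_num) hw1R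
  have hex : ∀ m : ℕ, ∃ n : ℕ, m ∈ A → Leh n ∧ (n : ℤ) = c * w * (a : ℤ) ^ m + b := by
    intro m
    by_cases hm : m ∈ A
    · obtain ⟨n, hn⟩ := hA m hm
      exact ⟨n, fun _ => hn⟩
    · exact ⟨0, fun h => absurd h hm⟩
  choose f hf using hex
  have hbad := bad_le_one ha hc0 A f (fun m hm => (hf m hm).2)
  set A' := A.filter (fun m => ¬ f m < w * 2 ^ m) with hA'
  have hcard : A.card ≤ A'.card + 1 := by
    have h1 : (A.filter (fun m => f m < w * 2 ^ m)).card + A'.card = A.card := by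
      rw [hA']
      convert Finset.card_filter_add_card_filter_not (s := A) (fun m => f m < w * 2 ^ m)
    omega
  have hG := GG_pos (v := v) ha
  set G := GG v a with hGdef
  set z : ℝ := 1 + Real.logb 2 w with hz
  have hz0 : 0 < z := by linarith
  obtain ⟨hl0, hl1⟩ := inv_log_le hG
  set d : ℝ := 100 / (G + 100) with hd
  have hd0 : 0 < d := by positivity
  have hgr : ∀ m ∈ A', ∀ m' ∈ A', m < m' → (1 + d) * (z + m) ≤ z + m' := by
    intro m hm m' hm' hlt
    rw [hA', mem_filter] at hm hm'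
    obtain ⟨k, hk⟩ := Nat.exists_eq_add_of_le hlt.le
    subst hk
    have hk1 : 1 ≤ k := by omega
    have h1 := gap ha hodd hc hw hk1 (hf m hm.1).1 (hf _ hm'.1).1 (hf m hm.1).2 (hf _ hm'.1).2
    have h2 : w * 2 ^ m ≤ f m := not_lt.1 hm.2
    have h3 : w * 2 ^ m ≤ f (m + k) := by
      refine le_trans ?_ (not_lt.1 hm'.2)
      exact Nat.mul_le_mul_left _ (Nat.pow_le_pow_right (by norm_num) (by omega))
    have h4 : (w * 2 ^ m) ^ 100 < 2 ^ (2 ^ v * (a ^ 2 - 1) * k) := by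
      rcases h1 with h | h
      · exact (Nat.pow_le_pow_left h2 100).trans_lt h
      · exact (Nat.pow_le_pow_left h3 100).trans_lt h
    have h5 : ((w : ℝ) * 2 ^ m) ^ 100 < 2 ^ (2 ^ v * (a ^ 2 - 1) * k) := by exact_mod_cast h4
    have h6 := Real.logb_lt_logb (b := 2) (by norm_num) (by positivity) h5
    rw [Real.logb_pow, Real.logb_pow, Real.logb_mul (by positivity) (by positivity),
      Real.logb_pow, Real.logb_self_eq_one (by norm_num), mul_one, mul_one] at h6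
    have h7 : ((2 ^ v * (a ^ 2 - 1) * k : ℕ) : ℝ) = G * k := by
      rw [Nat.cast_mul, GG_cast ha]
    rw [h7] at h6
    push_cast at h6 ⊢
    have hk1R : (1 : ℝ) ≤ k := by exact_mod_cast hk1
    have h8 : 100 * (z + m) ≤ (G + 100) * k := by
      rw [hz]
      nlinarith
    have h9 : d * (z + m) ≤ k := by
      rw [hd, div_mul_eq_mul_div, div_le_iff₀ (by linarith)]
      linarith
    linarith
  have h1 := growth A' z d hz0 hd0 hgr Z hzZ (fun m hm => hZ m (mem_of_mem_filter m hm))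
  have h2 : ((A'.card - 1 : ℕ) : ℝ) * Real.log (1 + d) ≤ Real.log (Z / z) := by
    rw [← Real.log_pow]
    apply Real.log_le_log (by positivity)
    rw [le_div_iff₀ hz0]
    exact h1
  have h3 : ((A'.card - 1 : ℕ) : ℝ) ≤ (2 + G / 100) * Real.log (Z / z) := by
    have h4 : 0 ≤ Real.log (Z / z) := by
      apply Real.log_nonneg
      rw [le_div_iff₀ hz0]
      linarith
    calc ((A'.card - 1 : ℕ) : ℝ) ≤ Real.log (Z / z) / Real.log (1 + d) := by
          rw [le_div_iff₀ hl0]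
          exact h2
      _ = (1 / Real.log (1 + d)) * Real.log (Z / z) := by ring
      _ ≤ (2 + G / 100) * Real.log (Z / z) := mul_le_mul_of_nonneg_right hl1 h4
  have h4 : A.card ≤ (A'.card - 1) + 2 := by omega
  have h5 : (A.card : ℝ) ≤ ((A'.card - 1 : ℕ) : ℝ) + 2 := by exact_mod_cast h4
  linarith

end Pool.Agent.L0h33.LU
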