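import Pool.Agent.L0h33.LU.Units

/-!
# Lehmer numbers in shifted sets of `T`-units: the prime two
-/

set_option autoImplicit false

namespace Pool.Agent.L0h33.LU

open Finset
open Pool.Agent.H95R2.Leh
open Pool.Agent.R330.LT

/-- if `n - b` is divisible by a large power of two then `n` is small -/
theorem small {β : ℕ} {b : ℤ} (hb : ¬ (2 : ℤ) ^ (β + 1) ∣ b - 1) {n : ℕ} (hn : Leh n)
    (h : (2 : ℤ) ^ (β + 1) ∣ (n : ℤ) - b) : n < 2 ^ (2 ^ β) := by
  obtain ⟨t, h1, h2⟩ := leh_two hn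
  have ht : t ≤ β := by
    by_contra hcon
    push Not at hcon
    apply hb
    have h3 : ((2 ^ (β + 1) : ℕ) : ℤ) ∣ ((n - 1 : ℕ) : ℤ) :=
      Int.natCast_dvd_natCast.2 ((pow_dvd_pow 2 (by omega)).trans h1)
    rw [Nat.cast_sub hn.1.le, Nat.cast_one, Nat.cast_pow, Nat.cast_ofNat] at h3
    have h4 := dvd_sub h3 h
    have h5 : (n : ℤ) - 1 - ((n : ℤ) - b) = b - 1 := by ring
    rwa [h5] at h4
  calc n ≤ n ^ 100 := Nat.le_self_pow (by norm_num) n
    _ < 2 ^ (2 ^ t) := h2
    _ ≤ 2 ^ (2 ^ β) :=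
      Nat.pow_le_pow_right (by norm_num) (Nat.pow_le_pow_right (by norm_num) ht)

/-- at most `2 ^ (2 ^ β)` members of a set with `2 ^ (β + 1) ∣ c u` -/
theorem small_card {β : ℕ} {c b : ℤ} (hc : c ≠ 0) (hb : ¬ (2 : ℤ) ^ (β + 1) ∣ b - 1)
    (A : Finset ℕ) (h : ℕ → ℤ) (hinj : ∀ u ∈ A, ∀ u' ∈ A, h u = h u' → u = u')
    (hA : ∀ u ∈ A, (2 : ℤ) ^ (β + 1) ∣ c * h u ∧ ∃ n : ℕ, Leh n ∧ (n : ℤ) = c * h u + b) :
    A.card ≤ 2 ^ (2 ^ β) := by
  have hex : ∀ u : ℕ, ∃ n : ℕ, u ∈ A → Leh n ∧ (n : ℤ) = c * h u + b := by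
    intro u
    by_cases hu : u ∈ A
    · obtain ⟨n, hn⟩ := (hA u hu).2
      exact ⟨n, fun _ => hn⟩
    · exact ⟨0, fun h => absurd h hu⟩
  choose f hf using hex
  have h1 : A.card ≤ (range (2 ^ (2 ^ β))).card := by
    apply card_le_card_of_injOn f
    · intro u hu
      have hu' : u ∈ A := hu
      rw [mem_coe, mem_range]
      apply small hb (hf u hu').1
      rw [(hf u hu').2, add_sub_cancel_right]
      exact (hA u hu').1
    · intro u hu u' hu' he
      have h2 := (hf u hu).2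
      have h3 := (hf u' hu').2
      rw [he, h3] at h2
      apply hinj u hu u' hu'
      have h4 : c * h u' = c * h u := by linarith
      exact (mul_left_cancel₀ hc h4).symm
  rwa [card_range] at h1

/-- even base -/
theorem even_base {a : ℕ} (ha : 2 ≤ a) (heven : 2 ∣ a) {β : ℕ} {c b : ℤ} (hc : c ≠ 0)
    (hb : ¬ (2 : ℤ) ^ (β + 1) ∣ b - 1) (A : Finset ℕ)
    (hA : ∀ m ∈ A, ∃ n : ℕ, Leh n ∧ (n : ℤ) = c * (a : ℤ) ^ m + b) :
    A.card ≤ β + 1 + 2 ^ (2 ^ β) := by
  have h1 := Finset.card_filter_add_card_filter_not (s := A) (fun m => m < β + 1)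
  have h2 : (A.filter (fun m => m < β + 1)).card ≤ β + 1 := by
    have : A.filter (fun m => m < β + 1) ⊆ range (β + 1) := by
      intro m hm
      exact mem_range.2 (mem_filter.1 hm).2
    simpa using card_le_card this
  have h3 : (A.filter (fun m => ¬ m < β + 1)).card ≤ 2 ^ (2 ^ β) := by
    apply small_card hc hb _ (fun m => (a : ℤ) ^ m)
    · intro m _ m' _ he
      have he' : (a : ℤ) ^ m = (a : ℤ) ^ m' := he
      have h4 : a ^ m = a ^ m' := by exact_mod_cast he'
      exact Nat.pow_right_injective ha h4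
    · intro m hm
      rw [mem_filter] at hm
      refine ⟨?_, hA m hm.1⟩
      apply Dvd.dvd.mul_left
      have h5 : (2 : ℤ) ∣ a := by exact_mod_cast heven
      exact (pow_dvd_pow 2 (not_lt.1 hm.2)).trans (pow_dvd_pow_of_dvd h5 m)
  omega

theorem units_even {T : Finset ℕ} (hT : ∀ t ∈ T, t.Prime) {p q : ℕ} (hp : p ∈ T)
    (hq : q ∈ T) (hp2 : p ≠ 2) (hq2 : q ≠ 2) (hpq : p ≠ q) {β : ℕ} {c b : ℤ} (hc : c ≠ 0)
    (hb : ¬ (2 : ℤ) ^ (β + 1) ∣ b - 1) (X : ℕ)
    (hX : 1 ≤ X) (E : Finset ℕ) (hE : ∀ u ∈ E, 1 ≤ u ∧ u ≤ X ∧ u.primeFactors ⊆ T ∧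
      ∃ n : ℕ, Leh n ∧ (n : ℤ) = c * u + b) :
    (E.card : ℝ) ≤ 2 ^ (2 ^ β) + (β + 1) *
      ((10 + GG β p / 25) * (1 + Real.logb 2 X) ^ ((T.erase 2).card - 1)) := by
  classical
  have hXR : (1 : ℝ) ≤ X := by exact_mod_cast hX
  have hlX : 0 ≤ Real.logb 2 X := Real.logb_nonneg (by norm_num) hXR
  have hp3 : 3 ≤ p := by
    have h1 := (hT p hp).two_le
    omega
  have hG := GG_pos (v := β) hp3
  set R : ℝ := (10 + GG β p / 25) * (1 + Real.logb 2 X) ^ ((T.erase 2).card - 1) with hR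
  have hR0 : 0 ≤ R := by positivity
  set E1 := E.filter (fun u : ℕ => (2 : ℤ) ^ (β + 1) ∣ c * (u : ℤ)) with hE1
  set E2 := E.filter (fun u : ℕ => ¬ (2 : ℤ) ^ (β + 1) ∣ c * (u : ℤ)) with hE2
  have h1 : E1.card + E2.card = E.card := by
    rw [hE1, hE2]
    exact Finset.card_filter_add_card_filter_not (s := E) _
  have h2 : E1.card ≤ 2 ^ (2 ^ β) := by
    apply small_card hc hb _ (fun u => (u : ℤ))
    · intro u _ u' _ he
      exact_mod_cast he
    · intro u hu
      rw [hE1, mem_filter] at hu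
      exact ⟨hu.2, (hE u hu.1).2.2.2⟩
  have hmaps : Set.MapsTo (fun u : ℕ => u.factorization 2) (E2 : Set ℕ)
      ((range (β + 1) : Finset ℕ) : Set ℕ) := by
    intro u hu
    have hu' : u ∈ E2 := hu
    rw [hE2, mem_filter] at hu'
    rw [mem_coe, mem_range]
    by_contra hcon
    push Not at hcon
    apply hu'.2
    apply Dvd.dvd.mul_left
    have h3 : 2 ^ (β + 1) ∣ u := (pow_dvd_pow 2 hcon).trans (Nat.ordProj_dvd u 2)
    exact_mod_cast h3
  have hfib : ∀ e ∈ range (β + 1), ((E2.filter (fun u => u.factorization 2 = e)).card : ℝ) ≤ R := by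
    intro e _
    rcases (E2.filter (fun u => u.factorization 2 = e)).eq_empty_or_nonempty with h0 | ⟨u0, hu0⟩
    · rw [h0]
      simpa using hR0
    · have hdec : ∀ u ∈ E2.filter (fun u => u.factorization 2 = e), 2 ^ e * (u / 2 ^ e) = u ∧
          1 ≤ u ∧ u ≤ X ∧ ¬ 2 ∣ u / 2 ^ e := by
        intro u hu
        rw [mem_filter, hE2, mem_filter] at hu
        obtain ⟨h3, h4, -, -⟩ := hE u hu.1.1
        refine ⟨?_, h3, h4, ?_⟩
        · rw [← hu.2]
          exact Nat.ordProj_mul_ordCompl_eq_self u 2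
        · rw [← hu.2]
          exact Nat.not_dvd_ordCompl Nat.prime_two (by omega)
      have hcard : (E2.filter (fun u => u.factorization 2 = e)).card =
          ((E2.filter (fun u => u.factorization 2 = e)).image (fun u => u / 2 ^ e)).card := by
        symm
        apply card_image_of_injOn
        intro u hu u' hu' he
        have h3 := (hdec u (mem_coe.1 hu)).1
        have h4 := (hdec u' (mem_coe.1 hu')).1
        have h5 : u / 2 ^ e = u' / 2 ^ e := he
        rw [← h3, ← h4, h5]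
      have hce : ¬ (2 : ℤ) ^ (β + 1) ∣ c * 2 ^ e := by
        intro h3
        have h4 := hu0
        rw [mem_filter, hE2, mem_filter] at h4
        apply h4.1.2
        have h5 : c * (u0 : ℤ) = c * 2 ^ e * ((u0 / 2 ^ e : ℕ) : ℤ) := by
          have h6 := (hdec u0 hu0).1
          conv_lhs => rw [← h6]
          push_cast
          ring
        rw [h5]
        exact Dvd.dvd.mul_right h3 _
      rw [hcard, hR]
      apply units (T := T.erase 2) (p := p) (q := q) (c := c * 2 ^ e) (b := b) _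
        (mem_erase.2 ⟨hp2, hp⟩) (mem_erase.2 ⟨hq2, hq⟩) hpq hce X hX
      · intro u' hu'
        obtain ⟨u, hu, rfl⟩ := mem_image.1 hu'
        obtain ⟨h3, h4, h5, h6⟩ := hdec u hu
        have h7 : u ∈ E := by
          rw [mem_filter, hE2, mem_filter] at hu
          exact hu.1.1
        obtain ⟨-, -, h8, n, h9, h10⟩ := hE u h7
        have hpos : 0 < u / 2 ^ e := by
          rcases Nat.eq_zero_or_pos (u / 2 ^ e) with h | h
          · rw [h, mul_zero] at h3
            omega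
          · exact h
        refine ⟨hpos, (Nat.div_le_self _ _).trans h5, ?_, n, h9, ?_⟩
        · intro r hr
          have hrp : r.Prime := Nat.prime_of_mem_primeFactors hr
          have hrd : r ∣ u / 2 ^ e := Nat.dvd_of_mem_primeFactors hr
          refine mem_erase.2 ⟨?_, ?_⟩
          · rintro rfl
            exact h6 hrd
          · apply h8
            refine Nat.mem_primeFactors.2 ⟨hrp, ?_, by omega⟩
            rw [← h3]
            exact Dvd.dvd.mul_left hrd _
        · rw [h10]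
          conv_lhs => rw [← h3]
          push_cast
          ring
      · intro t ht
        rw [mem_erase] at ht
        exact ⟨hT t ht.2, ht.1⟩
  have h3 : (E2.card : ℝ) ≤ (β + 1) * R := by
    rw [card_eq_sum_card_fiberwise hmaps]
    push_cast
    calc ∑ e ∈ range (β + 1), ((E2.filter (fun u => u.factorization 2 = e)).card : ℝ)
        ≤ ∑ _e ∈ range (β + 1), R := sum_le_sum hfib
      _ = (β + 1) * R := by
        rw [sum_const, card_range, nsmul_eq_mul]
        push_cast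
        ring
  have h4 : (E.card : ℝ) = E1.card + E2.card := by exact_mod_cast h1.symm
  have h5 : (E1.card : ℝ) ≤ 2 ^ (2 ^ β) := by exact_mod_cast h2
  linarith

end Pool.Agent.L0h33.LU
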