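import Pool.Agent.R330.LT.Seq
import Pool.Agent.H95R2.Leh.Congr

/-!
# Lehmer numbers in geometric progressions: the gap principle

If `n` is composite and `φ(n) ∣ n - 1` then `2 ^ ω(n) ∣ n - 1`, while `n ^ 100 < 2 ^ (2 ^ ω(n))`. So two such
numbers `n`, `n'` are congruent modulo a power of two which exceeds `100 log₂ (min n n')`. For `n = c w a ^ m + b`,
`n' = c w a ^ (m + k) + b` this forces `k` to be large.
-/

set_option autoImplicit false

namespace Pool.Agent.L0h33.LU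

open Finset
open Pool.Agent.H95R2.Leh
open Pool.Agent.R330.LT

theorem leh_two {n : ℕ} (h : Leh n) : ∃ t : ℕ, 2 ^ t ∣ n - 1 ∧ n ^ 100 < 2 ^ (2 ^ t) := by
  refine ⟨n.primeFactors.card, ?_, leh_bound h⟩
  have hsq := leh_sqf h
  have hodd := leh_odd h
  have hn0 : 0 < n := by have := h.1; omega
  have h1 : n.totient = ∏ p ∈ n.primeFactors, (p - 1) := by
    have h2 := Nat.totient_mul_prod_primeFactors n
    rw [Nat.prod_primeFactors_of_squarefree hsq, mul_comm] at h2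
    exact Nat.eq_of_mul_eq_mul_left hn0 h2
  have h2 : 2 ^ n.primeFactors.card ∣ ∏ p ∈ n.primeFactors, (p - 1) := by
    rw [← Finset.prod_const]
    apply Finset.prod_dvd_prod_of_dvd
    intro p hp
    have hpp : p.Prime := Nat.prime_of_mem_primeFactors hp
    have hpn : p ∣ n := Nat.dvd_of_mem_primeFactors hp
    have hp2 : p ≠ 2 := by
      rintro rfl
      exact hodd hpn
    have := hpp.eq_two_or_odd
    omega
  rw [← h1] at h2
  exact h2.trans h.2.2

theorem lte {a : ℕ} (ha : 3 ≤ a) (hodd : ¬ 2 ∣ a) {s k : ℕ} (hk : 1 ≤ k) (h : 2 ^ s ∣ a ^ k - 1) :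
    2 ^ s ≤ (a ^ 2 - 1) * k := by
  have h1 : a ^ k - 1 ∣ a ^ (2 * k) - 1 := by
    rw [mul_comm, pow_mul]
    simpa using Nat.sub_dvd_pow_sub_pow (a ^ k) 1 2
  have h2 : padicValNat 2 (a ^ (2 * k) - 1) + 1 =
      padicValNat 2 (a + 1) + padicValNat 2 (a - 1) + padicValNat 2 (2 * k) :=
    padicValNat.pow_two_sub_one (by omega) hodd (by omega) ⟨k, by ring⟩
  have h3 : padicValNat 2 (2 * k) = 1 + padicValNat 2 k := by
    rw [padicValNat.mul (by norm_num) (by omega)]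
    simp
  have h4 : padicValNat 2 (a + 1) + padicValNat 2 (a - 1) = padicValNat 2 (a ^ 2 - 1) := by
    rw [← padicValNat.mul (by omega) (by omega)]
    congr 1
    have := Nat.sq_sub_sq a 1
    simpa using this.symm
  have h5 : a ^ (2 * k) - 1 ≠ 0 := by
    have : 1 < a ^ (2 * k) := Nat.one_lt_pow (by omega) (by omega)
    omega
  have h6 : s ≤ padicValNat 2 (a ^ (2 * k) - 1) :=
    (padicValNat_dvd_iff_le h5).1 (h.trans h1)
  have h7 : s ≤ padicValNat 2 (a ^ 2 - 1) + padicValNat 2 k := by omega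
  have h8 : a ^ 2 - 1 ≠ 0 := by
    have : 1 < a ^ 2 := Nat.one_lt_pow (by omega) (by omega)
    omega
  calc 2 ^ s ≤ 2 ^ (padicValNat 2 (a ^ 2 - 1) + padicValNat 2 k) :=
        Nat.pow_le_pow_right (by norm_num) h7
    _ = 2 ^ padicValNat 2 (a ^ 2 - 1) * 2 ^ padicValNat 2 k := pow_add _ _ _
    _ ≤ (a ^ 2 - 1) * k := by
        apply Nat.mul_le_mul
        · exact Nat.le_of_dvd (Nat.pos_of_ne_zero h8) pow_padicValNat_dvd
        · exact Nat.le_of_dvd (by omega) pow_padicValNat_dvd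

theorem pow_le {a : ℕ} (ha : 3 ≤ a) (hodd : ¬ 2 ∣ a) {v : ℕ} {c : ℕ} (hc : ¬ 2 ^ (v + 1) ∣ c)
    {w : ℕ} (hw : ¬ 2 ∣ w) {m k t : ℕ} (hk : 1 ≤ k) (h : 2 ^ t ∣ c * (w * a ^ m * (a ^ k - 1))) :
    2 ^ t ≤ 2 ^ v * (a ^ 2 - 1) * k := by
  have hc0 : c ≠ 0 := by
    rintro rfl
    exact hc (dvd_zero _)
  obtain ⟨j, c', hc', hcj⟩ := Nat.exists_eq_two_pow_mul_odd hc0
  have hjv : j ≤ v := by
    by_contra hcon
    push Not at hcon
    apply hc
    rw [hcj]
    exact Dvd.dvd.mul_right (pow_dvd_pow 2 (by omega)) _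
  have hG : 1 ≤ (a ^ 2 - 1) * k := by
    have : 1 < a ^ 2 := Nat.one_lt_pow (by omega) (by omega)
    exact Nat.mul_pos (by omega) hk
  have hjle : 2 ^ j ≤ 2 ^ v := Nat.pow_le_pow_right (by norm_num) hjv
  rcases Nat.lt_or_ge t j with htj | htj
  · calc 2 ^ t ≤ 2 ^ v * 1 := by
          rw [mul_one]
          exact Nat.pow_le_pow_right (by norm_num) (by omega)
      _ ≤ 2 ^ v * ((a ^ 2 - 1) * k) := Nat.mul_le_mul_left _ hG
      _ = _ := by ring
  · obtain ⟨s, rfl⟩ := Nat.exists_eq_add_of_le htj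
    rw [hcj, pow_add, mul_assoc] at h
    have h1 : 2 ^ s ∣ c' * (w * a ^ m * (a ^ k - 1)) :=
      Nat.dvd_of_mul_dvd_mul_left (by positivity) h
    have hcop : ∀ y : ℕ, ¬ 2 ∣ y → Nat.Coprime (2 ^ s) y := fun y hy =>
      Nat.Coprime.pow_left s ((Nat.Prime.coprime_iff_not_dvd Nat.prime_two).2 hy)
    have h2 : 2 ^ s ∣ w * a ^ m * (a ^ k - 1) :=
      (hcop c' (by
        intro h2
        exact (Nat.not_even_iff_odd.2 hc') (even_iff_two_dvd.2 h2))).dvd_of_dvd_mul_left h1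
    have h3 : 2 ^ s ∣ a ^ k - 1 := by
      apply (hcop (w * a ^ m) _).dvd_of_dvd_mul_left h2
      intro h4
      rcases (Nat.Prime.dvd_mul Nat.prime_two).1 h4 with h5 | h5
      · exact hw h5
      · exact hodd (Nat.prime_two.dvd_of_dvd_pow h5)
    have h4 := lte ha hodd hk h3
    calc 2 ^ (j + s) = 2 ^ j * 2 ^ s := pow_add _ _ _
      _ ≤ 2 ^ v * ((a ^ 2 - 1) * k) := Nat.mul_le_mul hjle h4
      _ = _ := by ring

theorem gap {a : ℕ} (ha : 3 ≤ a) (hodd : ¬ 2 ∣ a) {v : ℕ} {c b : ℤ} (hc : ¬ (2 : ℤ) ^ (v + 1) ∣ c)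
    {w : ℕ} (hw : ¬ 2 ∣ w) {m k n n' : ℕ} (hk : 1 ≤ k) (hn : Leh n) (hn' : Leh n')
    (e : (n : ℤ) = c * w * (a : ℤ) ^ m + b) (e' : (n' : ℤ) = c * w * (a : ℤ) ^ (m + k) + b) :
    n ^ 100 < 2 ^ (2 ^ v * (a ^ 2 - 1) * k) ∨ n' ^ 100 < 2 ^ (2 ^ v * (a ^ 2 - 1) * k) := by
  obtain ⟨t, h1, h2⟩ := leh_two hn
  obtain ⟨t', h1', h2'⟩ := leh_two hn'
  have hcN : ¬ 2 ^ (v + 1) ∣ c.natAbs := by
    intro h
    apply hc
    have : ((2 ^ (v + 1) : ℕ) : ℤ) ∣ c := Int.natCast_dvd.2 h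
    simpa using this
  have key : ∀ s : ℕ, 2 ^ s ∣ n - 1 → 2 ^ s ∣ n' - 1 → 2 ^ s ≤ 2 ^ v * (a ^ 2 - 1) * k := by
    intro s h3 h4
    have h3' : ((2 ^ s : ℕ) : ℤ) ∣ (n : ℤ) - 1 := by
      have := Int.natCast_dvd_natCast.2 h3
      rwa [Nat.cast_sub hn.1.le, Nat.cast_one] at this
    have h4' : ((2 ^ s : ℕ) : ℤ) ∣ (n' : ℤ) - 1 := by
      have := Int.natCast_dvd_natCast.2 h4
      rwa [Nat.cast_sub hn'.1.le, Nat.cast_one] at this
    have h5 : ((2 ^ s : ℕ) : ℤ) ∣ c * ((w * a ^ m * (a ^ k - 1) : ℕ) : ℤ) := by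
      have h6 := dvd_sub h4' h3'
      have h7 : (n' : ℤ) - 1 - ((n : ℤ) - 1) = c * ((w * a ^ m * (a ^ k - 1) : ℕ) : ℤ) := by
        have : 1 ≤ a ^ k := Nat.one_le_pow _ _ (by omega)
        rw [e, e']
        push_cast [Nat.cast_sub this]
        ring
      rwa [h7] at h6
    have h6 : 2 ^ s ∣ c.natAbs * (w * a ^ m * (a ^ k - 1)) := by
      have := Int.natCast_dvd.1 h5
      rwa [Int.natAbs_mul, Int.natAbs_natCast] at this
    exact pow_le ha hodd hcN hw hk h6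
  rcases le_total t t' with htt | htt
  · left
    have := key t h1 ((pow_dvd_pow 2 htt).trans h1')
    exact h2.trans_le (Nat.pow_le_pow_right (by norm_num) this)
  · right
    have := key t' ((pow_dvd_pow 2 htt).trans h1) h1'
    exact h2'.trans_le (Nat.pow_le_pow_right (by norm_num) this)

/-- sets with growth -/
theorem growth (A : Finset ℕ) (z d : ℝ) (hz : 0 < z) (hd : 0 < d)
    (hA : ∀ m ∈ A, ∀ m' ∈ A, m < m' → (1 + d) * (z + m) ≤ z + m') :
    ∀ Z : ℝ, z ≤ Z → (∀ m ∈ A, z + m ≤ Z) → (1 + d) ^ (A.card - 1) * z ≤ Z := by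
  classical
  induction A using Finset.induction_on_max with
  | empty =>
    intro Z hzZ _
    simpa using hzZ
  | insert M A hM ih =>
    intro Z hzZ hZ
    have hMA : M ∉ A := fun h => lt_irrefl _ (hM M h)
    rw [card_insert_of_notMem hMA, Nat.add_sub_cancel]
    rcases A.eq_empty_or_nonempty with rfl | hne
    · simpa using hzZ
    · have h1 : (1 + d) ^ (A.card - 1) * z ≤ Z / (1 + d) := by
        apply ih (fun m hm m' hm' => hA m (mem_insert_of_mem hm) m' (mem_insert_of_mem hm'))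
        · obtain ⟨m, hm⟩ := hne
          rw [le_div_iff₀ (by linarith)]
          have h2 := hA m (mem_insert_of_mem hm) M (mem_insert_self _ _) (hM m hm)
          have h3 := hZ M (mem_insert_self _ _)
          have h4 : (0 : ℝ) ≤ m := Nat.cast_nonneg m
          nlinarith
        · intro m hm
          rw [le_div_iff₀ (by linarith)]
          have h2 := hA m (mem_insert_of_mem hm) M (mem_insert_self _ _) (hM m hm)
          have h3 := hZ M (mem_insert_self _ _)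
          linarith
      have hc : A.card = (A.card - 1) + 1 := by
        have := card_pos.2 hne
        omega
      rw [le_div_iff₀ (by linarith)] at h1
      calc (1 + d) ^ A.card * z = (1 + d) ^ (A.card - 1) * z * (1 + d) := by
            conv_lhs => rw [hc]
            ring
        _ ≤ Z := h1

end Pool.Agent.L0h33.LU
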