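import Pool.Agent.L0h33.LU.Count

/-!
# Lehmer numbers in shifted sets of `T`-units
-/

set_option autoImplicit false

namespace Pool.Agent.L0h33.LU

open Finset
open Pool.Agent.H95R2.Leh
open Pool.Agent.R330.LT

theorem sum_inv_sqrt (k : ℕ) :
    ∑ j ∈ range k, 1 / Real.sqrt (1 + (j : ℝ)) ≤ 2 * Real.sqrt (k : ℝ) := by
  induction k with
  | zero => simp
  | succ k ih =>
    rw [sum_range_succ]
    have e : ((k + 1 : ℕ) : ℝ) = 1 + (k : ℝ) := by push_cast; ring
    rw [e]
    set a := Real.sqrt (k : ℝ) with ha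
    set b := Real.sqrt (1 + (k : ℝ)) with hb
    have ha0 : 0 ≤ a := Real.sqrt_nonneg _
    have hb0 : 0 < b := Real.sqrt_pos.2 (by positivity)
    have ha2 : a * a = k := Real.mul_self_sqrt (by positivity)
    have hb2 : b * b = 1 + k := Real.mul_self_sqrt (by positivity)
    have h1 : 1 / b ≤ 2 * b - 2 * a := by
      rw [div_le_iff₀ hb0]
      nlinarith [sq_nonneg (b - a)]
    linarith

theorem log_le_two_sqrt {y : ℝ} (hy : 0 < y) : Real.log y ≤ 2 * Real.sqrt y := by
  have h1 := Real.log_le_sub_one_of_pos (Real.sqrt_pos.2 hy)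
  rw [Real.log_sqrt hy.le] at h1
  linarith

theorem unit_decomp {T : Finset ℕ} {p q : ℕ} (hp : p ∈ T) (hq : q ∈ T) (hpq : p ≠ q) {u : ℕ}
    (hu : u ≠ 0) (hT : u.primeFactors ⊆ T) :
    u = (q ^ u.factorization q * ∏ t : {x // x ∈ (T.erase p).erase q},
      t.1 ^ u.factorization t.1) * p ^ u.factorization p := by
  have h1 : ∏ t : {x // x ∈ (T.erase p).erase q}, t.1 ^ u.factorization t.1 =
      ∏ t ∈ (T.erase p).erase q, t ^ u.factorization t :=
    Finset.prod_coe_sort ((T.erase p).erase q) (fun t => t ^ u.factorization t)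
  have h2 : u = ∏ t ∈ T, t ^ u.factorization t := by
    conv_lhs => rw [← Nat.prod_factorization_pow_eq_self hu]
    apply Finsupp.prod_of_support_subset
    · rw [Nat.support_factorization]
      exact hT
    · intro i _
      simp
  have hq' : q ∈ T.erase p := mem_erase.2 ⟨hpq.symm, hq⟩
  have h3 := Finset.mul_prod_erase T (fun t => t ^ u.factorization t) hp
  have h4 := Finset.mul_prod_erase (T.erase p) (fun t => t ^ u.factorization t) hq'
  rw [h1]
  conv_lhs => rw [h2, ← h3, ← h4]
  ring

theorem units {T : Finset ℕ} (hT : ∀ t ∈ T, t.Prime ∧ t ≠ 2) {p q : ℕ} (hp : p ∈ T)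
    (hq : q ∈ T) (hpq : p ≠ q) {v : ℕ} {c b : ℤ} (hc : ¬ (2 : ℤ) ^ (v + 1) ∣ c) (X : ℕ)
    (hX : 1 ≤ X) (E : Finset ℕ) (hE : ∀ u ∈ E, 1 ≤ u ∧ u ≤ X ∧ u.primeFactors ⊆ T ∧
      ∃ n : ℕ, Leh n ∧ (n : ℤ) = c * u + b) :
    (E.card : ℝ) ≤ (10 + GG v p / 25) * (1 + Real.logb 2 X) ^ (T.card - 1) := by
  classical
  have hXR : (1 : ℝ) ≤ X := by exact_mod_cast hX
  set L := Nat.log 2 X with hL
  set Z : ℝ := 1 + Real.logb 2 X with hZ
  have hlX : 0 ≤ Real.logb 2 X := Real.logb_nonneg (by norm_num) hXR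
  have hZ1 : 1 ≤ Z := by linarith
  have hLZ : ((L + 1 : ℕ) : ℝ) ≤ Z := by
    have := Real.natLog_le_logb X 2
    push_cast at this ⊢
    rw [hZ]
    linarith
  have hp3 : 3 ≤ p := by
    have h1 := (hT p hp).1.two_le
    have h2 := (hT p hp).2
    omega
  have hpodd : ¬ 2 ∣ p := by
    intro h
    exact (hT p hp).2 ((Nat.prime_dvd_prime_iff_eq Nat.prime_two (hT p hp).1).1 h).symm
  have hG := GG_pos (v := v) hp3
  set G := GG v p with hGdef
  set T' := (T.erase p).erase q with hT'
  have hTc : T'.card = T.card - 2 := by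
    rw [hT', card_erase_of_mem (mem_erase.2 ⟨hpq.symm, hq⟩), card_erase_of_mem hp]
    omega
  have hTc2 : 2 ≤ T.card := by
    have h1 : ({p, q} : Finset ℕ) ⊆ T := by
      intro x hx
      simp only [mem_insert, mem_singleton] at hx
      rcases hx with rfl | rfl <;> assumption
    have h2 := card_le_card h1
    rwa [card_pair hpq] at h2
  let Pi : Finset ({x // x ∈ T'} → ℕ) := Fintype.piFinset (fun _ => range (L + 1))
  have hPi : (Pi.card : ℝ) ≤ Z ^ (T.card - 2) := by
    have h1 : Pi.card = (L + 1) ^ (T.card - 2) := by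
      show (Fintype.piFinset (fun _ => range (L + 1))).card = _
      rw [Fintype.card_piFinset]
      simp [hTc]
    rw [h1]
    push_cast at hLZ ⊢
    exact pow_le_pow_left₀ (by positivity) hLZ _
  let g : ℕ → ({x // x ∈ T'} → ℕ) × ℕ := fun u => (fun t => u.factorization t.1, u.factorization q)
  have hfac : ∀ u ∈ E, ∀ t : ℕ, t.Prime → u.factorization t < L + 1 := by
    intro u hu t ht
    obtain ⟨h1, h2, -, -⟩ := hE u hu
    apply Nat.lt_succ_of_le
    apply Nat.le_log_of_pow_le (by norm_num)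
    calc 2 ^ u.factorization t ≤ t ^ u.factorization t := Nat.pow_le_pow_left ht.two_le _
      _ ≤ u := Nat.le_of_dvd h1 (Nat.ordProj_dvd u t)
      _ ≤ X := h2
  have hmaps : Set.MapsTo g (E : Set ℕ) ((Pi ×ˢ range (L + 1) : Finset _) : Set _) := by
    intro u hu
    have hu' : u ∈ E := hu
    rw [mem_coe, mem_product]
    refine ⟨?_, mem_range.2 (hfac u hu' q (hT q hq).1)⟩
    show _ ∈ Fintype.piFinset (fun _ => range (L + 1))
    rw [Fintype.mem_piFinset]
    intro t
    have htT : t.1 ∈ T := mem_of_mem_erase (mem_of_mem_erase t.2)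
    exact mem_range.2 (hfac u hu' t.1 (hT t.1 htT).1)
  have hfib : ∀ x ∈ Pi ×ˢ range (L + 1), ((E.filter (fun u => g u = x)).card : ℝ) ≤
      2 + (4 + G / 50) * Real.sqrt Z * (1 / Real.sqrt (1 + (x.2 : ℝ))) := by
    rintro ⟨g0, j⟩ -
    show (_ : ℝ) ≤ 2 + (4 + G / 50) * Real.sqrt Z * (1 / Real.sqrt (1 + (j : ℝ)))
    rcases (E.filter (fun u => g u = (g0, j))).eq_empty_or_nonempty with h0 | ⟨u0, hu0⟩
    · rw [h0]
      simp only [card_empty, Nat.cast_zero]
      positivity
    · set w : ℕ := q ^ j * ∏ t : {x // x ∈ T'}, t.1 ^ g0 t with hw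
      have hdec : ∀ u ∈ E.filter (fun u => g u = (g0, j)), u = w * p ^ u.factorization p := by
        intro u hu
        rw [mem_filter] at hu
        obtain ⟨h1, h2, h3, -⟩ := hE u hu.1
        have h4 := unit_decomp hp hq hpq (by omega) h3
        have h5 : (fun t : {x // x ∈ T'} => u.factorization t.1) = g0 := congrArg Prod.fst hu.2
        have h6 : u.factorization q = j := congrArg Prod.snd hu.2
        rw [hw, ← h6]
        have h7 : ∏ t : {x // x ∈ T'}, t.1 ^ g0 t =
            ∏ t : {x // x ∈ T'}, t.1 ^ u.factorization t.1 := by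
          apply Finset.prod_congr rfl
          intro t _
          rw [← h5]
        rw [h7]
        exact h4
      have hw0 : w ≠ 0 := by
        intro h
        have h1 := hdec u0 hu0
        rw [h, zero_mul] at h1
        have := (hE u0 (mem_filter.1 hu0).1).1
        omega
      have hw1 : 1 ≤ w := Nat.pos_of_ne_zero hw0
      have hw1R : (1 : ℝ) ≤ w := by exact_mod_cast hw1
      have hw2 : ¬ 2 ∣ w := by
        intro h
        have h1 : 2 ∣ u0 := by
          rw [hdec u0 hu0]
          exact Dvd.dvd.mul_right h _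
        obtain ⟨h2, -, h3, -⟩ := hE u0 (mem_filter.1 hu0).1
        have h4 : 2 ∈ u0.primeFactors := Nat.mem_primeFactors.2 ⟨Nat.prime_two, h1, by omega⟩
        exact (hT 2 (h3 h4)).2 rfl
      have hqj : 2 ^ j ≤ w := by
        have h1 : q ^ j ∣ w := Dvd.intro _ rfl
        exact (Nat.pow_le_pow_left (hT q hq).1.two_le j).trans (Nat.le_of_dvd hw1 h1)
      have hjl : (j : ℝ) ≤ Real.logb 2 w := by
        rw [Real.le_logb_iff_rpow_le (by norm_num) (by linarith), Real.rpow_natCast]
        exact_mod_cast hqj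
      set A := (E.filter (fun u => g u = (g0, j))).image (fun u => u.factorization p) with hA
      have hAc : A.card = (E.filter (fun u => g u = (g0, j))).card := by
        rw [hA]
        apply card_image_of_injOn
        intro u hu u' hu' he
        have h1 := hdec u (mem_coe.1 hu)
        have h2 := hdec u' (mem_coe.1 hu')
        have h3 : u.factorization p = u'.factorization p := he
        rw [h1, h2, h3]
      have hsize : ∀ u ∈ E.filter (fun u => g u = (g0, j)),
          1 + Real.logb 2 w + (u.factorization p : ℕ) ≤ Z := by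
        intro u hu
        have h1 := hdec u hu
        obtain ⟨h2, h3, -, -⟩ := hE u (mem_filter.1 hu).1
        have h4 : w * 2 ^ u.factorization p ≤ X := by
          calc w * 2 ^ u.factorization p ≤ w * p ^ u.factorization p :=
                Nat.mul_le_mul_left _ (Nat.pow_le_pow_left (by omega) _)
            _ = u := h1.symm
            _ ≤ X := h3
        have h5 : (w : ℝ) * 2 ^ u.factorization p ≤ X := by exact_mod_cast h4
        have h6 := Real.logb_le_logb_of_le (b := 2) (by norm_num) (by positivity) h5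
        rw [Real.logb_mul (by positivity) (by positivity), Real.logb_pow,
          Real.logb_self_eq_one (by norm_num), mul_one] at h6
        rw [hZ]
        linarith
      have hz1 : 1 + Real.logb 2 w ≤ Z := by
        have h1 := hsize u0 hu0
        have h2 : (0 : ℝ) ≤ (u0.factorization p : ℕ) := Nat.cast_nonneg _
        linarith
      have hcount := count (v := v) (c := c) (b := b) hp3 hpodd hc hw2 A (by
        intro m hm
        obtain ⟨u, hu, rfl⟩ := mem_image.1 hm
        obtain ⟨-, -, -, n, h4, h5⟩ := hE u (mem_filter.1 hu).1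
        refine ⟨n, h4, ?_⟩
        rw [h5]
        conv_lhs => rw [hdec u hu]
        push_cast
        ring) Z hz1 (by
        intro m hm
        obtain ⟨u, hu, rfl⟩ := mem_image.1 hm
        exact hsize u hu)
      rw [hAc] at hcount
      have hj0 : (0 : ℝ) ≤ j := Nat.cast_nonneg _
      have hlog : Real.log (Z / (1 + Real.logb 2 w)) ≤
          2 * (Real.sqrt Z * (1 / Real.sqrt (1 + (j : ℝ)))) := by
        have h1 : 0 < Z / (1 + Real.logb 2 w) := by
          apply div_pos <;> linarith
        have h2 : Z / (1 + Real.logb 2 w) ≤ Z / (1 + (j : ℝ)) :=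
          div_le_div_of_nonneg_left (by linarith) (by linarith) (by linarith)
        calc Real.log (Z / (1 + Real.logb 2 w)) ≤ 2 * Real.sqrt (Z / (1 + Real.logb 2 w)) :=
              log_le_two_sqrt h1
          _ ≤ 2 * Real.sqrt (Z / (1 + (j : ℝ))) := by
              have := Real.sqrt_le_sqrt h2
              linarith
          _ = 2 * (Real.sqrt Z * (1 / Real.sqrt (1 + (j : ℝ)))) := by
              rw [Real.sqrt_div (by linarith)]
              ring
      have h9 : (2 + G / 100) * Real.log (Z / (1 + Real.logb 2 w)) ≤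
          (2 + G / 100) * (2 * (Real.sqrt Z * (1 / Real.sqrt (1 + (j : ℝ))))) :=
        mul_le_mul_of_nonneg_left hlog (by positivity)
      calc ((E.filter (fun u => g u = (g0, j))).card : ℝ) ≤
            2 + (2 + G / 100) * Real.log (Z / (1 + Real.logb 2 w)) := hcount
        _ ≤ 2 + (2 + G / 100) * (2 * (Real.sqrt Z * (1 / Real.sqrt (1 + (j : ℝ))))) := by
            linarith
        _ = _ := by ring
  have hZs : Real.sqrt Z * Real.sqrt Z = Z := Real.mul_self_sqrt (by linarith)
  have hsq0 : 0 ≤ Real.sqrt Z := Real.sqrt_nonneg _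
  have hsum : ∑ j ∈ range (L + 1), (2 + (4 + G / 50) * Real.sqrt Z * (1 / Real.sqrt (1 + (j : ℝ)))) ≤
      (10 + G / 25) * Z := by
    rw [sum_add_distrib, ← mul_sum]
    simp only [sum_const, card_range, nsmul_eq_mul]
    have h1 := sum_inv_sqrt (L + 1)
    have h2 : Real.sqrt ((L + 1 : ℕ) : ℝ) ≤ Real.sqrt Z := Real.sqrt_le_sqrt hLZ
    have h3 : (4 + G / 50) * Real.sqrt Z * ∑ j ∈ range (L + 1), 1 / Real.sqrt (1 + (j : ℝ)) ≤
        (4 + G / 50) * Real.sqrt Z * (2 * Real.sqrt Z) := by
      apply mul_le_mul_of_nonneg_left _ (by positivity)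
      linarith
    have h4 : (4 + G / 50) * Real.sqrt Z * (2 * Real.sqrt Z) = (8 + G / 25) * Z := by
      rw [show (4 + G / 50) * Real.sqrt Z * (2 * Real.sqrt Z) =
        (8 + G / 25) * (Real.sqrt Z * Real.sqrt Z) by ring, hZs]
    have h5 : ((L + 1 : ℕ) : ℝ) * 2 ≤ Z * 2 := by linarith
    linarith
  have hsum0 : (0 : ℝ) ≤ (10 + G / 25) * Z := by positivity
  rw [card_eq_sum_card_fiberwise hmaps]
  push_cast
  calc ∑ x ∈ Pi ×ˢ range (L + 1), ((E.filter (fun u => g u = x)).card : ℝ)
      ≤ ∑ x ∈ Pi ×ˢ range (L + 1),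
        (2 + (4 + G / 50) * Real.sqrt Z * (1 / Real.sqrt (1 + (x.2 : ℝ)))) := sum_le_sum hfib
    _ = ∑ _x ∈ Pi, ∑ j ∈ range (L + 1),
        (2 + (4 + G / 50) * Real.sqrt Z * (1 / Real.sqrt (1 + (j : ℝ)))) := by
        rw [sum_product]
    _ = (Pi.card : ℝ) * ∑ j ∈ range (L + 1),
        (2 + (4 + G / 50) * Real.sqrt Z * (1 / Real.sqrt (1 + (j : ℝ)))) := by
        rw [sum_const, nsmul_eq_mul]
    _ ≤ Z ^ (T.card - 2) * ((10 + G / 25) * Z) := by
        apply mul_le_mul hPi hsum _ (by positivity)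
        apply sum_nonneg
        intro j _
        positivity
    _ = (10 + G / 25) * Z ^ (T.card - 1) := by
        have : T.card - 1 = (T.card - 2) + 1 := by omega
        rw [this, pow_succ]
        ring

end Pool.Agent.L0h33.LU
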